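import Pool.Agent.X232.CF.H.Main
set_option autoImplicit false

/-!
`K_2` of hyperelliptic curves of every genus `g` over `ℚ` (and over number fields): for the curves
`y² = f(x) (f(x) + 4 e)`, that is `z + 1/z = 2 e + f(x)`, with `e = ± 1` and `f = μ ∏_i (x - b_i)` with
`g + 1` arbitrary different integers `b_i` and an arbitrary integer `μ`, `|μ| ≥ 17`, the regulator is
an isomorphism on the part of the integral motivic cohomology which is generated by the symbols of
the functions without zeros and poles outside of the points with `x = b_i` and the points at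
infinity; this part has dimension exactly `g`.
-/

namespace Pool.Agent.Results.MP_743d1e_nt.HyperellipticIsomorphism

open Polynomial

open Pool.Agent.TH826.MK (Torus Unramified)

open Pool.Agent.TH826.HD (POpen pcst)

open Pool.Agent.X232.CF (IsoModConstants Part konst)

section defs

variable {K : Type*} [Field K] {g : ℕ}

/-- The polynomial `2 e + μ ∏_i (x - b_i)`. -/
noncomputable def pol (mu e : K) (b : Fin (g + 1) → K) : K[X] :=
  C (2 * e) + C mu * ∏ i, (X - C (b i))

/-- The coordinate ring `K[x, z, ∏ (x - b_i)⁻¹] / (z² - F(x) z + 1)`, `F = 2 e + μ ∏_i (x - b_i)`, of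
the open part of the curve `z + 1/z = F(x)` where `x` is none of the `b_i`. -/
abbrev Ring (mu e : K) (b : Fin (g + 1) → K) : Type _ := POpen (pol mu e b) b

/-- The constants. -/
noncomputable abbrev cst (mu e : K) (b : Fin (g + 1) → K) : K →+* Ring mu e b :=
  pcst (pol mu e b) b

/-- The curve `z² - F(x) z + 1 = 0` is smooth at all complex points over the embedding `s`. -/
def Smooth (s : K →+* ℂ) (mu e : K) (b : Fin (g + 1) → K) : Prop :=
  ∀ x z : ℂ, z ^ 2 - (pol mu e b).eval₂ s x * z + 1 = 0 →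
    2 * z - (pol mu e b).eval₂ s x ≠ 0 ∨ (derivative (pol mu e b)).eval₂ s x * z ≠ 0

/-- The loop lies in the complex points over `s` of the open part. -/
def Over (s : K →+* ℂ) {mu e : K} {b : Fin (g + 1) → K} (Γ : Torus (Ring mu e b) 1) : Prop :=
  ∀ θ (y : K), Γ.e θ (cst mu e b y) = s y

/-- `IsoModConstants` holds for the function field `L` of the curve, with `g` loops over `s`: `Part`
consists of integral elements modulo `K_2(K) ⊗ ℚ`, it has the dimension `g` modulo `K_2(K) ⊗ ℚ`, and
the regulator is an isomorphism. If `K = ℚ`, the image of `K_2(K) ⊗ ℚ` vanishes, so `Part` itself is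
integral and has the dimension `g`. -/
def RegulatorIsomorphism.{w, v} {K : Type w} [Field K] [NumberField K] (s : K →+* ℂ) (mu e : K)
    (b : Fin (g + 1) → K) : Prop :=
  ∀ (L : Type v) [Field L] [Algebra (Ring mu e b) L] [IsFractionRing (Ring mu e b) L],
    IsoModConstants (cst mu e b) L (fun (_ : Fin g) (Γ : Torus (Ring mu e b) 1) => Over s Γ) ∧
    (Module.finrank ℚ K = 1 → konst (cst mu e b) L = ⊥ ∧
      Part (cst mu e b) L ≤ Unramified L 2 ∧ Module.finrank ℚ (Part (cst mu e b) L) = g)

end defs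

/-- *Rational coefficients.* Let `b_0, ..., b_g` be different integers, let `μ` be an integer with
`|μ| ≥ 17`, and let `e = ± 1`. Then the open part `x ≠ b_i` of the curve
`z + 1/z = 2 e + μ ∏_i (x - b_i)` has a coordinate ring `A` which is a domain, the curve is smooth at
its complex points, and for its function field `L`: the subspace `Part` of the elements of
`K_2(L) ⊗ ℚ` which come from symbols of units of `A` and are unramified over `ℚ` is integral and has
dimension exactly `g`, and the regulator is, for suitable `g` loops, an isomorphism of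
`ℝ ⊗ Part` onto `ℝ ^ g`.

*Number fields.* Let `s` be a complex embedding of the number field `K`, let `b_0, ..., b_g` and `μ`
be algebraic integers of `K`, `e = ± 1`, and suppose that `|s b_i - s b_j| ≥ D ≥ 2` for `i ≠ j`,
`|s μ| ≥ 1` and `|s μ| D ^ (g + 1) > 4 · 2 ^ (g + 1)`. Then the same is true modulo `K_2(K) ⊗ ℚ`. -/
theorem result.{u, v} :
    (∀ (g : ℕ) (b : Fin (g + 1) → ℤ) (mu : ℤ) (e : ℚ), Function.Injective b → 17 ≤ |mu| →
      (e = 1 ∨ e = -1) →
      IsDomain (Ring (mu : ℚ) e fun i => (b i : ℚ)) ∧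
      Smooth (algebraMap ℚ ℂ) (mu : ℚ) e (fun i => (b i : ℚ)) ∧
      RegulatorIsomorphism.{0, v} (algebraMap ℚ ℂ) (mu : ℚ) e fun i => (b i : ℚ)) ∧
    ∀ (K : Type u) [Field K] [NumberField K] (s : K →+* ℂ) (g : ℕ) (b : Fin (g + 1) → K)
      (mu e : K) (D : ℝ), IsIntegral ℤ mu → (∀ i, IsIntegral ℤ (b i)) → (e = 1 ∨ e = -1) →
      2 ≤ D → (∀ i j, i ≠ j → D ≤ ‖s (b i) - s (b j)‖) → 1 ≤ ‖s mu‖ →
      4 * 2 ^ (g + 1) < ‖s mu‖ * D ^ (g + 1) →
      IsDomain (Ring mu e b) ∧ Smooth s mu e b ∧ RegulatorIsomorphism.{u, v} s mu e b := by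
  refine ⟨?_, ?_⟩
  · intro g b mu e hb h17 he
    have hmu : (mu : ℚ) ≠ 0 := by
      have h0 : mu ≠ 0 := by
        rintro rfl
        norm_num at h17
      exact_mod_cast h0
    have hb' : Function.Injective fun i => (b i : ℚ) := Int.cast_injective.comp hb
    obtain ⟨ρ, η, H, hfar⟩ := Pool.Agent.X232.CF.H.sepd_near hb he (algebraMap ℚ ℂ) h17
    refine ⟨Pool.Agent.X232.CF.E.isDomain_POpen (Pool.Agent.X232.CF.H.pos_FH hmu),
      fun x z h => Pool.Agent.TH826.UH.smooth_of_sepd H h, ?_⟩
    have h6 : ∀ (L : Type v) [Field L]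
        [Algebra (POpen (Pool.Agent.X232.CF.H.FH (mu : ℚ) e fun i => (b i : ℚ))
          fun i => (b i : ℚ)) L]
        [IsFractionRing (POpen (Pool.Agent.X232.CF.H.FH (mu : ℚ) e fun i => (b i : ℚ))
          fun i => (b i : ℚ)) L],
        IsoModConstants (pcst (Pool.Agent.X232.CF.H.FH (mu : ℚ) e fun i => (b i : ℚ))
          fun i => (b i : ℚ)) L
          (fun (_ : Fin g) (Γ : Torus (POpen (Pool.Agent.X232.CF.H.FH (mu : ℚ) e
            fun i => (b i : ℚ)) fun i => (b i : ℚ)) 1) =>
            Pool.Agent.X232.CF.H.OverH (algebraMap ℚ ℂ) Γ) ∧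
        (Module.finrank ℚ ℚ = 1 →
          konst (pcst (Pool.Agent.X232.CF.H.FH (mu : ℚ) e fun i => (b i : ℚ))
            fun i => (b i : ℚ)) L = ⊥ ∧
          Part (pcst (Pool.Agent.X232.CF.H.FH (mu : ℚ) e fun i => (b i : ℚ))
            fun i => (b i : ℚ)) L ≤ Unramified L 2 ∧
          Module.finrank ℚ (Part (pcst (Pool.Agent.X232.CF.H.FH (mu : ℚ) e fun i => (b i : ℚ))
            fun i => (b i : ℚ)) L) = g) := by
      intro L _ _ _
      have h := Pool.Agent.X232.CF.H.iso_H hmu he hb'
        (isIntegral_algebraMap (R := ℤ) (x := mu))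
        (fun i => isIntegral_algebraMap (R := ℤ) (x := b i)) (algebraMap ℚ ℂ) H hfar L
      refine ⟨h, fun hK => ?_⟩
      have h0 := Pool.Agent.X232.CF.P.konst_bot
        (pcst (Pool.Agent.X232.CF.H.FH (mu : ℚ) e fun i => (b i : ℚ)) fun i => (b i : ℚ)) L hK
      exact ⟨h0, Pool.Agent.X232.CF.H.part_of_bot _ L h0 h.1 (h.2.1.trans (Nat.card_fin g))⟩
    exact h6
  · intro K _ _ s g b mu e D imu ib he hD hsep h1 hlt
    have hmu : mu ≠ 0 := by
      rintro rfl
      rw [map_zero, norm_zero] at h1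
      linarith
    have hb : Function.Injective b := by
      intro i j hij
      by_contra hne
      have h := hsep i j hne
      rw [hij, sub_self, norm_zero] at h
      linarith
    obtain ⟨ρ, η, H, hfar⟩ := Pool.Agent.X232.CF.H.sepd_far hmu he s hD hsep h1 hlt
    refine ⟨Pool.Agent.X232.CF.E.isDomain_POpen (Pool.Agent.X232.CF.H.pos_FH hmu),
      fun x z h => Pool.Agent.TH826.UH.smooth_of_sepd H h, ?_⟩
    have h6 : ∀ (L : Type v) [Field L]
        [Algebra (POpen (Pool.Agent.X232.CF.H.FH mu e b) b) L]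
        [IsFractionRing (POpen (Pool.Agent.X232.CF.H.FH mu e b) b) L],
        IsoModConstants (pcst (Pool.Agent.X232.CF.H.FH mu e b) b) L
          (fun (_ : Fin g) (Γ : Torus (POpen (Pool.Agent.X232.CF.H.FH mu e b) b) 1) =>
            Pool.Agent.X232.CF.H.OverH s Γ) ∧
        (Module.finrank ℚ K = 1 →
          konst (pcst (Pool.Agent.X232.CF.H.FH mu e b) b) L = ⊥ ∧
          Part (pcst (Pool.Agent.X232.CF.H.FH mu e b) b) L ≤ Unramified L 2 ∧
          Module.finrank ℚ (Part (pcst (Pool.Agent.X232.CF.H.FH mu e b) b) L) = g) := by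
      intro L _ _ _
      have h := Pool.Agent.X232.CF.H.iso_H hmu he hb imu ib s H hfar L
      refine ⟨h, fun hK => ?_⟩
      have h0 := Pool.Agent.X232.CF.P.konst_bot
        (pcst (Pool.Agent.X232.CF.H.FH mu e b) b) L hK
      exact ⟨h0, Pool.Agent.X232.CF.H.part_of_bot _ L h0 h.1 (h.2.1.trans (Nat.card_fin g))⟩
    exact h6

end Pool.Agent.Results.MP_743d1e_nt.HyperellipticIsomorphism
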