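import Pool.Agent.X232.CF.P.Main
import Pool.Agent.Y797.IV.Unr
set_option autoImplicit false

/-!
`K_2` of smooth plane curves of every degree over `ℚ` (and over number fields): on the curves
`λ ∏_e (y - s_e x - r_e) = 1`, where the lines `y = s_e x + r_e`, `0 ≤ e ≤ m`, have different slopes
and no three of them meet in a point, the regulator is an isomorphism on the part of the integral
motivic cohomology which is generated by the symbols of the functions without zeros and poles on the
affine curve; this part has dimension exactly `m (m - 1) / 2`, the genus of the curve.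
-/

namespace Pool.Agent.Results.MP_743d1e_nt.PlaneCurveIsomorphism

open Pool.Agent.TH826.MK (Torus)

open Pool.Agent.TH826.GA (GRing gcst geqn)

open Pool.Agent.X232.CF (IsoModConstants PartMod konst)

section defs

variable {K : Type*} [Field K] {m : ℕ}

/-- The coefficients `(-s_e, 1)` of `x` and `y` in the affine forms `y - s_e x - r_e`. -/
def lin (s : Fin (m + 1) → K) (e : Fin (m + 1)) : Fin (1 + 1) → K := ![-s e, 1]

/-- The coordinate ring `K[x, y] / (λ ∏_e (y - s_e x - r_e) - 1)`. -/
abbrev Ring (lam : K) (s r : Fin (m + 1) → K) : Type _ := GRing lam (lin s) r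

/-- The constants. -/
noncomputable abbrev cst (lam : K) (s r : Fin (m + 1) → K) : K →+* Ring lam s r :=
  gcst lam (lin s) r

/-- The lines `y = s_e x + r_e` have integral coefficients and different slopes, and no three of them
meet in a point. -/
structure Lines (s r : Fin (m + 1) → K) : Prop where
  int_slope : ∀ e, IsIntegral ℤ (s e)
  int_const : ∀ e, IsIntegral ℤ (r e)
  slopes : Function.Injective s
  general : ∀ e f g, e ≠ f → f ≠ g → e ≠ g → ∀ x y : K,
    ¬ (y = s e * x + r e ∧ y = s f * x + r f ∧ y = s g * x + r g)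

/-- The integer `D ≠ 0` clears the denominators of the intersection points of the lines. -/
structure Clearing (s r : Fin (m + 1) → K) (D : K) : Prop where
  ne_zero : D ≠ 0
  integral : IsIntegral ℤ D
  clears : ∀ e f, e ≠ f → IsIntegral ℤ (D * ((r f - r e) / (s e - s f)))

/-- The gradient of the equation `λ ∏_e (y - s_e x - r_e) = 1` does not vanish at the complex points
over `σ`. (The `m + 1` points at infinity of the closure in the projective plane are always different
and smooth, if the slopes are different.) -/
def Smooth (σ : K →+* ℂ) (lam : K) (s r : Fin (m + 1) → K) : Prop :=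
  ∀ x : Fin (1 + 1) → ℂ, MvPolynomial.eval₂ σ x (geqn lam (lin s) r) = 0 →
    ∃ j, MvPolynomial.eval₂ σ x (MvPolynomial.pderiv j (geqn lam (lin s) r)) ≠ 0

/-- The loop lies in the complex points over `σ` of the affine curve. -/
def Over (σ : K →+* ℂ) {lam : K} {s r : Fin (m + 1) → K} (Γ : Torus (Ring lam s r) 1) : Prop :=
  ∀ θ (y : K), Γ.e θ (cst lam s r y) = σ y

/-- `IsoModConstants` holds for the function field `L` of the curve, with loops over `σ` which are
indexed by the subsets with two elements of a set with `m` elements; the dimension is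
`binom(m, 2)`; and the image of `K_2(K) ⊗ ℚ` vanishes if `K = ℚ`. -/
def RegulatorIsomorphism.{w, v} {K : Type w} [Field K] [NumberField K] (σ : K →+* ℂ) (lam : K)
    (s r : Fin (m + 1) → K) : Prop :=
  ∀ (L : Type v) [Field L] [Algebra (Ring lam s r) L] [IsFractionRing (Ring lam s r) L],
    IsoModConstants (cst lam s r) L
      (fun (_ : {t : Finset (Fin m) // t.card = 2}) (Γ : Torus (Ring lam s r) 1) => Over σ Γ) ∧
    Module.finrank ℚ (PartMod (cst lam s r) L) = m.choose 2 ∧
    (Module.finrank ℚ K = 1 → konst (cst lam s r) L = ⊥)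

end defs

/-- Let `K` be a number field (for instance `ℚ`) with a complex embedding `σ`, let `m ≥ 2`, and let
`y = s_e x + r_e`, `0 ≤ e ≤ m`, be lines with `s_e, r_e` in the ring of integers of `K`, with
different slopes, such that no three of them meet in a point. There are integers `D ≥ 1` which clear
the denominators of the intersection points of the lines. There is a constant `Λ` such that for all
these `D` (in the ring of integers of `K`), all algebraic integers `μ` of `K` and
`λ = μ D ^ (m + 1)` with `|σ λ| ≥ Λ` the coordinate ring of the plane curve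
`λ ∏_e (y - s_e x - r_e) = 1` of degree `m + 1` is a domain, the curve is smooth at its complex
points over `σ`, and for its function field `L`: the elements of `K_2(L) ⊗ ℚ` which come from
symbols of units of the coordinate ring and are unramified over `K` are integral modulo
`K_2(K) ⊗ ℚ`, they form modulo `K_2(K) ⊗ ℚ` a space of dimension exactly
`binom(m, 2) = m (m - 1) / 2`, the genus of the curve; the regulator is well-defined on this space,
and it gives, for suitable `binom(m, 2)` loops in the complex points over `σ`, an isomorphism of this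
space, tensored with `ℝ`, with `ℝ ^ binom(m, 2)`. If `K = ℚ`, `K_2(K) ⊗ ℚ` can be omitted. -/
theorem result.{u, v} (K : Type u) [Field K] [NumberField K] (σ : K →+* ℂ) (m : ℕ) (hm : 2 ≤ m)
    (s r : Fin (m + 1) → K) (h : Lines s r) :
    (∃ D : ℕ, 0 < D ∧ Clearing s r (D : K)) ∧
    ∃ Λ : ℝ, ∀ D mu : K, Clearing s r D → IsIntegral ℤ mu → Λ ≤ ‖σ (mu * D ^ (m + 1))‖ →
      IsDomain (Ring (mu * D ^ (m + 1)) s r) ∧ Smooth σ (mu * D ^ (m + 1)) s r ∧
        RegulatorIsomorphism.{u, v} σ (mu * D ^ (m + 1)) s r := by
  have hG := Pool.Agent.X232.CF.P.genPos_of h.slopes h.general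
  refine ⟨?_, ?_⟩
  · obtain ⟨D, hD⟩ := Pool.Agent.Y797.IV.exists_clears (Pool.Agent.X232.CF.P.cS s) r
    refine ⟨D, Nat.pos_of_ne_zero fun h0 => hD.1 (by rw [h0, Nat.cast_zero]), hD.1, hD.2.1,
      fun e f hef => ?_⟩
    have hT : Function.Injective (![e, f] : Fin (1 + 1) → Fin (m + 1)) := by
      intro i j hij
      fin_cases i <;> fin_cases j
      · rfl
      · exact absurd hij hef
      · exact absurd hij.symm hef
      · rfl
    have h1 := hD.2.2 _ (Pool.Agent.X232.CF.P.det_cS_ne h.slopes _ hT) 0
    rw [Pool.Agent.X232.CF.P.vtx_zero h.slopes hT] at h1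
    exact h1
  · obtain ⟨c1, -, h1⟩ := Pool.Agent.X232.CF.P.iso_P σ h.slopes hG (by omega) h.int_slope
      h.int_const
    obtain ⟨c2, h2⟩ := Pool.Agent.TH826.GA.exists_smooth (c := Pool.Agent.X232.CF.P.cS s) (a := r)
      (d := 1) σ hG.1 hG.2 hm
    refine ⟨max c1 c2, fun D mu hD hmu hl => ?_⟩
    have hDc := Pool.Agent.X232.CF.P.clears_of h.slopes h.int_slope h.int_const hD.ne_zero
      hD.integral hD.clears
    obtain ⟨h3, h4⟩ := h1 _ D mu hDc hmu rfl ((le_max_left _ _).trans hl)
    have h6 : ∀ (L : Type v) [Field L]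
        [Algebra (Pool.Agent.X232.CF.P.PA (mu * D ^ (m + 1)) s r) L]
        [IsFractionRing (Pool.Agent.X232.CF.P.PA (mu * D ^ (m + 1)) s r) L],
        IsoModConstants (Pool.Agent.X232.CF.P.pc (mu * D ^ (m + 1)) s r) L
          (fun (_ : Pool.Agent.X232.CF.P.TT m)
            (Γ : Torus (Pool.Agent.X232.CF.P.PA (mu * D ^ (m + 1)) s r) 1) =>
            Pool.Agent.X232.CF.P.OverP σ Γ) ∧
        Module.finrank ℚ (PartMod (Pool.Agent.X232.CF.P.pc (mu * D ^ (m + 1)) s r) L) =
          m.choose 2 ∧
        (Module.finrank ℚ K = 1 →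
          konst (Pool.Agent.X232.CF.P.pc (mu * D ^ (m + 1)) s r) L = ⊥) := by
      intro L _ _ _
      have h5 := h4 L
      exact ⟨h5, h5.2.1.trans (Pool.Agent.X232.CF.P.card_TT m),
        Pool.Agent.X232.CF.P.konst_bot _ L⟩
    exact ⟨h3, h2 _ ((le_max_right _ _).trans hl), h6⟩

end Pool.Agent.Results.MP_743d1e_nt.PlaneCurveIsomorphism
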