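import Pool.Agent.Y94.UG.Main
import Pool.Agent.X321.GR.Loops
import Pool.Agent.X321.GR.Fin
set_option autoImplicit false

/-!
The growth of the regulators on integral `K_2` of the hyperelliptic curves `z + 1/z = F(x)` over `ℚ`
with the genus `g`: for every integer polynomial `F` of degree `g + 1` with `g + 1` special integers the
absolute value of the determinant of the regulators is at least
`(2 π (log |μ| + (1 - η) g log g)) ^ g` for all large `g`.
-/

namespace Pool.Agent.Results.MP_743d1e_nt.RegulatorGrowthWithGenus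

open Polynomial

open Pool.Agent.TH826.MK (KQ symb Torus Unramified circ)

open Pool.Agent.TH826.HD (PRing POpen pent toP pcst pDel uz ux isDomain_PRing pDel_ne_zero liftP
  liftP_toP)

open Pool.Agent.TH826.UH (symb_mem_unramified)

/-- The integer polynomial `F` as a polynomial with rational coefficients. -/
noncomputable def rat (F : ℤ[X]) : ℚ[X] := F.map (Int.castRingHom ℚ)

/-- The integers `b_i` as rational numbers. -/
def bq {n : ℕ} (b : Fin n → ℤ) : Fin n → ℚ := fun i => (b i : ℚ)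

/-- The embedding of `ℚ` into `ℂ`. -/
noncomputable def sq : ℚ →+* ℂ := algebraMap ℚ ℂ

/-- The symbols `{z, (x - b_m) / (x - b_l)}` are unramified at all discrete valuations of the function
field of the curve `z² - F(x) z + 1 = 0` over `ℚ`. -/
def UnramifiedSymbols.{v} {g : ℕ} (F : ℤ[X]) (b : Fin (g + 1) → ℤ) : Prop :=
  ∀ (L : Type v) [Field L] [Algebra (PRing (rat F)) L] [IsFractionRing (PRing (rat F)) L],
    ∃ f : POpen (rat F) (bq b) →+* L,
      (∀ r : PRing (rat F), f (toP (rat F) (bq b) r) = algebraMap (PRing (rat F)) L r) ∧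
      ∀ m l, KQ.map 2 f (symb (pent (rat F) (bq b) m l)) ∈ Unramified L 2

/-- `Γ_l`, `1 ≤ l ≤ g`, are loops in the complex points of the curve on which `z = R e^{2 π i θ}`, with
the same `R > 1` for all `l`, and `|x - b_l| < 1/8`. -/
def SmallLoops {g : ℕ} (F : ℤ[X]) (b : Fin (g + 1) → ℤ)
    (Γ : Fin g → Torus (POpen (rat F) (bq b)) 1) : Prop :=
  ∃ R : ℝ, 1 < R ∧ ∀ l θ, (∀ y : ℚ, (Γ l).e θ (pcst (rat F) (bq b) y) = (y : ℂ)) ∧
    (Γ l).e θ (uz (rat F) (bq b) : POpen (rat F) (bq b)) = circ R (θ 0) ∧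
    ‖(Γ l).e θ (ux (rat F) (bq b) l.succ : POpen (rat F) (bq b))‖ < 1 / 8

/-- the determinant of the regulators of the symbols `{z, (x - b_k) / (x - b_0)}`, `1 ≤ k ≤ g`, on the
loops -/
noncomputable def regDet {g : ℕ} (F : ℤ[X]) (b : Fin (g + 1) → ℤ)
    (Γ : Fin g → Torus (POpen (rat F) (bq b)) 1) : ℝ :=
  (Matrix.of fun l k : Fin g => (Γ l).reg (symb (pent (rat F) (bq b) k.succ 0))).det

theorem sq_int (n : ℤ) : sq (n : ℚ) = (n : ℂ) := map_intCast sq n

theorem rat_map (F : ℤ[X]) : (rat F).map sq = F.map (Int.castRingHom ℂ) := by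
  unfold rat
  rw [Polynomial.map_map]
  congr 1

theorem rat_eval (F : ℤ[X]) (n : ℤ) : (rat F).eval (n : ℚ) = ((F.eval n : ℤ) : ℚ) := by
  unfold rat
  have h2 := Polynomial.eval_map_apply (p := F) (Int.castRingHom ℚ) n
  rwa [eq_intCast, eq_intCast] at h2

/-- Let `0 < η < 1`. There is `g₀` such that the following holds for all `g ≥ 6`, all polynomials `F` of
degree `g + 1` with integer coefficients and leading coefficient `μ`, and all different integers
`b_0, ..., b_g` with `|F(b_i)| ≤ 2`. The coordinate ring of the plane curve `z² - F(x) z + 1 = 0` over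
`ℚ` is a domain, the symbols `{z, (x - b_m) / (x - b_l)}` are unramified at all discrete valuations of
the function field, and there are loops `Γ_l`, `1 ≤ l ≤ g`, in the complex points, with
`z = R e^{2 π i θ}`, `R > 1` and `|x - b_l| < 1/8` on `Γ_l` (`SmallLoops`), such that the determinant
of the regulators of the `g` symbols `{z, (x - b_k) / (x - b_0)}` on the loops has absolute value at
least `(2 π log |μ| + g - 3) ^ g`, and at least
`(2 π (log |μ| + (1 - η) g log g)) ^ g` if `g ≥ g₀`. -/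
theorem result.{v} (η : ℝ) (hη : 0 < η) (hη1 : η < 1) : ∃ g₀ : ℕ, ∀ g : ℕ, 6 ≤ g →
    ∀ (F : ℤ[X]) (b : Fin (g + 1) → ℤ), F.natDegree = g + 1 → Function.Injective b →
      (∀ i, |F.eval (b i)| ≤ 2) →
      IsDomain (PRing (rat F)) ∧ UnramifiedSymbols.{v} F b ∧
      ∃ Γ : Fin g → Torus (POpen (rat F) (bq b)) 1, SmallLoops F b Γ ∧
        (2 * Real.pi * Real.log |(F.leadingCoeff : ℝ)| + (g - 3)) ^ g ≤ |regDet F b Γ| ∧
        (g₀ ≤ g → (2 * Real.pi * Real.log |(F.leadingCoeff : ℝ)| +
          (1 - η) * (2 * Real.pi * (g * Real.log g))) ^ g ≤ |regDet F b Γ|) := by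
  obtain ⟨g0, hg0⟩ := Pool.Agent.X321.GR.exists_lower hη hη1
  refine ⟨g0, fun g hg F b hdeg hb hF => ?_⟩
  obtain ⟨ξ, H⟩ := Pool.Agent.Y94.UG.exists_sepd hg hdeg hb hF
  have hmap := rat_map F
  have hsb : (fun j => sq (bq b j)) = fun j => ((b j : ℤ) : ℂ) := by
    funext j
    exact sq_int _
  have H' : Pool.Agent.TH826.UH.Sepd ((rat F).map sq) (fun j => sq (bq b j)) (1 / 8) ξ := by
    rw [hmap, hsb]
    exact H
  have hti : ∀ i, ∃ (ζ : ℂ) (k : ℕ), k ≠ 0 ∧ ζ ^ k = 1 ∧
      sq ((rat F).eval (bq b i)) = ζ + ζ⁻¹ := by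
    intro i
    unfold bq
    rw [rat_eval, sq_int]
    exact Pool.Agent.Y94.UG.exists_zeta (hF i)
  have hti' : ∀ i, ∃ ζ : ℂ, ‖ζ‖ = 1 ∧ sq ((rat F).eval (bq b i)) = ζ + ζ⁻¹ := by
    intro i
    obtain ⟨ζ, k, hk, h1, h2⟩ := hti i
    refine ⟨ζ, ?_, h2⟩
    have h3 := congrArg norm h1
    rw [norm_pow, norm_one] at h3
    exact (pow_eq_one_iff_of_nonneg (norm_nonneg _) hk).1 h3
  have hint : ∀ i, IsIntegral ℤ ((rat F).coeff i) := by
    intro i
    unfold rat
    rw [Polynomial.coeff_map]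
    exact isIntegral_algebraMap (R := ℤ) (A := ℚ) (x := F.coeff i)
  have hdegF : 0 < (rat F).natDegree := by
    have h1 := H'.deg
    rw [Polynomial.natDegree_map] at h1
    omega
  have hdist : ∀ i j, ‖sq (bq b j) - sq (bq b i)‖ = |(b i : ℝ) - b j| := by
    intro i j
    have h1 : sq (bq b j) - sq (bq b i) = (((b j : ℝ) - b i : ℝ) : ℂ) := by
      rw [show sq (bq b i) = ((b i : ℤ) : ℂ) from sq_int _,
        show sq (bq b j) = ((b j : ℤ) : ℂ) from sq_int _]
      push_cast
      ring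
    rw [h1, Complex.norm_real, Real.norm_eq_abs, abs_sub_comm]
  have hnorm : ‖((rat F).map sq).leadingCoeff‖ = |(F.leadingCoeff : ℝ)| := by
    rw [hmap, leadingCoeff_map_of_injective (Int.cast_injective : Function.Injective
      (Int.castRingHom ℂ))]
    rw [show (Int.castRingHom ℂ) F.leadingCoeff = ((F.leadingCoeff : ℤ) : ℂ) from rfl,
      Complex.norm_intCast]
  have hlead : 0 ≤ Real.log |(F.leadingCoeff : ℝ)| := by
    refine Real.log_nonneg ?_
    have h0 : F.leadingCoeff ≠ 0 := by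
      rw [Ne, leadingCoeff_eq_zero]
      rintro rfl
      rw [natDegree_zero] at hdeg
      omega
    have := Int.one_le_abs h0
    exact_mod_cast this
  refine ⟨isDomain_PRing hdegF, ?_, ?_⟩
  · intro L _ _ _
    have hinj : Function.Injective (algebraMap (PRing (rat F)) L) :=
      IsFractionRing.injective _ _
    have hne : algebraMap (PRing (rat F)) L (pDel (rat F) (bq b)) ≠ 0 := by
      rw [Ne, map_eq_zero_iff _ hinj]
      exact pDel_ne_zero (bq b)
    exact ⟨liftP (algebraMap (PRing (rat F)) L) hne, fun r => liftP_toP _ _ _,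
      fun m l => symb_mem_unramified _ sq hint (fun i => by
        unfold bq
        exact isIntegral_algebraMap (R := ℤ) (x := b i)) m l hti⟩
  · have hpi := Real.pi_pos
    have hκ : 0 ≤ 2 * Real.pi * Real.log |(F.leadingCoeff : ℝ)| := by positivity
    obtain ⟨R, Γ, hR, h1, h2, h3, h4, h5⟩ := Pool.Agent.X321.GR.exists_loops_full H'
      (fun M => (2 * Real.pi * Real.log |(F.leadingCoeff : ℝ)| + (g - 3)) ^ g ≤ |M.det| ∧
        (g0 ≤ g → (2 * Real.pi * Real.log |(F.leadingCoeff : ℝ)| +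
          (1 - η) * (2 * Real.pi * (g * Real.log g))) ^ g ≤ |M.det|))
      (fun I hrow hlt => by
        rw [hnorm] at hrow
        have hoff : ∀ i j, i ≠ j →
            I i j < -(2 * Real.pi * Real.log (|(b i : ℝ) - b j| - 1 / 8)) := by
          intro i j hij
          have e1 : (1 : ℤ) ≤ |b i - b j| := Int.one_le_abs (sub_ne_zero.2 (hb.ne hij))
          have e2 : (1 : ℝ) ≤ |(b i : ℝ) - b j| := by exact_mod_cast e1
          refine hlt i j _ (by linarith) ?_
          rw [hdist]
          linarith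
        exact ⟨Pool.Agent.X321.GR.lower_six hg hb hκ hrow hoff,
          fun hgg => hg0 g hgg hb hκ hrow hoff⟩) hti'
    refine ⟨Γ, ⟨R, hR, fun l θ => ⟨fun y => ?_, h2 l θ, h3 l θ⟩⟩, h4, h5⟩
    rw [h1]
    exact (eq_ratCast sq y)

end Pool.Agent.Results.MP_743d1e_nt.RegulatorGrowthWithGenus
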