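import Pool.Agent.X321.ST.Loops
import Pool.Agent.X321.ST.Prod
import Pool.Agent.X321.ST.Bound
set_option autoImplicit false

/-!
The regulators on integral `K_2` of the hyperelliptic curves `z + 1/z = F(x)` of genus `g ≥ 20` over `ℚ`,
where `F` is any integer polynomial of degree `g + 1` with `g + 1` special integers: up to an explicit
error which is superexponentially small in `g`, the regulator matrix is a matrix of logarithms of
integers, and its determinant is a determinant of a weighted Laplacian.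
-/

namespace Pool.Agent.Results.MP_743d1e_nt.SpanningTreeAsymptotics

open Polynomial

open Pool.Agent.TH826.MK (KQ symb Torus Unramified circ)

open Pool.Agent.TH826.HD (PRing POpen pent toP pcst pDel uz ux isDomain_PRing pDel_ne_zero liftP
  liftP_toP)

open Pool.Agent.TH826.UH (symb_mem_unramified)

open Pool.Agent.X321.LG (lap lmat)

open Pool.Agent.X321.ST (rad wt)

/-- The integer polynomial `F` as a polynomial with rational coefficients. -/
noncomputable def rat (F : ℤ[X]) : ℚ[X] := F.map (Int.castRingHom ℚ)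

/-- The integers `b_i` as rational numbers. -/
def bq {n : ℕ} (b : Fin n → ℤ) : Fin n → ℚ := fun i => (b i : ℚ)

/-- The embedding of `ℚ` into `ℂ`. -/
noncomputable def sq : ℚ →+* ℂ := algebraMap ℚ ℂ

/-- The symbols `{z, (x - b_m) / (x - b_l)}` are unramified at all discrete valuations of the function
field of the curve `z² - F(x) z + 1 = 0` over `ℚ`. -/
def UnramifiedSymbols.{v} {g : ℕ} (F : ℤ[X]) (b : Fin (g + 1) → ℤ) : Prop :=
  ∀ (L : Type v) [Field L] [Algebra (PRing (rat F)) L] [IsFractionRing (PRing (rat F)) L],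
    ∃ f : POpen (rat F) (bq b) →+* L,
      (∀ r : PRing (rat F), f (toP (rat F) (bq b) r) = algebraMap (PRing (rat F)) L r) ∧
      ∀ m l, KQ.map 2 f (symb (pent (rat F) (bq b) m l)) ∈ Unramified L 2

/-- The radius `2 ^ (g + 3) / (|μ| (⌊g / 2⌋!)²)`, where `μ` is the leading coefficient of `F`. -/
noncomputable def radius (g : ℕ) (F : ℤ[X]) : ℝ :=
  2 ^ (g + 3) / (|(F.leadingCoeff : ℝ)| * ((g / 2).factorial : ℝ) ^ 2)

/-- `Γ_l`, `1 ≤ l ≤ g`, are loops in the complex points of the curve on which `z = R e^{2 π i θ}`, with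
the same `R > 1` for all `l`, and `|x - b_l| < ρ`. -/
def SmallLoops {g : ℕ} (F : ℤ[X]) (b : Fin (g + 1) → ℤ) (ρ : ℝ)
    (Γ : Fin g → Torus (POpen (rat F) (bq b)) 1) : Prop :=
  ∃ R : ℝ, 1 < R ∧ ∀ l θ, (∀ y : ℚ, (Γ l).e θ (pcst (rat F) (bq b) y) = (y : ℂ)) ∧
    (Γ l).e θ (uz (rat F) (bq b) : POpen (rat F) (bq b)) = circ R (θ 0) ∧
    ‖(Γ l).e θ (ux (rat F) (bq b) l.succ : POpen (rat F) (bq b))‖ < ρ

/-- the matrix of the regulators of the symbols `{z, (x - b_k) / (x - b_0)}`, `1 ≤ k ≤ g`, on the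
loops -/
noncomputable def regMatrix {g : ℕ} (F : ℤ[X]) (b : Fin (g + 1) → ℤ)
    (Γ : Fin g → Torus (POpen (rat F) (bq b)) 1) : Matrix (Fin g) (Fin g) ℝ :=
  Matrix.of fun l k => (Γ l).reg (symb (pent (rat F) (bq b) k.succ 0))

/-- `m` plus the Laplacian of the complete graph with the vertices `0, ..., g` and the weights
`log |b_i - b_j|` of the edges -/
noncomputable def laplacian {g : ℕ} (b : Fin (g + 1) → ℤ) (m : ℝ) :
    Matrix (Fin (g + 1)) (Fin (g + 1)) ℝ :=
  Matrix.of fun i j => if i = j then m + ∑ k ∈ Finset.univ.erase i, Real.log |(b i : ℝ) - b k|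
    else -Real.log |(b i : ℝ) - b j|

/-- The matrix of logarithms: the entry with the indices `l`, `k` (`1 ≤ l, k ≤ g`) is
`Λ_{k,l} - Λ_{0,l}`, where `Λ = log |μ| + ` Laplacian, and `μ` is the leading coefficient of `F`. -/
noncomputable def logMatrix {g : ℕ} (F : ℤ[X]) (b : Fin (g + 1) → ℤ) : Matrix (Fin g) (Fin g) ℝ :=
  Matrix.of fun l k => laplacian b (Real.log |(F.leadingCoeff : ℝ)|) k.succ l.succ -
    laplacian b (Real.log |(F.leadingCoeff : ℝ)|) 0 l.succ

/-- The determinant of the matrix of logarithms is not zero; multiplied with `log |μ|` it is the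
determinant of `log |μ| + ` Laplacian, and if `μ = ±1`, it is `g + 1` times the determinant of the
Laplacian without the row and the column `0`. -/
def LogDet {g : ℕ} (F : ℤ[X]) (b : Fin (g + 1) → ℤ) : Prop :=
  (logMatrix F b).det ≠ 0 ∧
  Real.log |(F.leadingCoeff : ℝ)| * (logMatrix F b).det =
    (laplacian b (Real.log |(F.leadingCoeff : ℝ)|)).det ∧
  (|F.leadingCoeff| = 1 → (logMatrix F b).det =
    (g + 1) * (Matrix.of fun l k : Fin g => laplacian b 0 l.succ k.succ).det)

theorem sq_int (n : ℤ) : sq (n : ℚ) = (n : ℂ) := map_intCast sq n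

theorem rat_map (F : ℤ[X]) : (rat F).map sq = F.map (Int.castRingHom ℂ) := by
  unfold rat
  rw [Polynomial.map_map]
  congr 1

theorem rat_eval (F : ℤ[X]) (n : ℤ) : (rat F).eval (n : ℚ) = ((F.eval n : ℤ) : ℚ) := by
  unfold rat
  have h2 := Polynomial.eval_map_apply (p := F) (Int.castRingHom ℚ) n
  rwa [eq_intCast, eq_intCast] at h2

theorem logMatrix_eq {g : ℕ} (F : ℤ[X]) (b : Fin (g + 1) → ℤ) :
    logMatrix F b = lmat (wt b) (Real.log |(F.leadingCoeff : ℝ)|) := rfl

theorem laplacian_eq {g : ℕ} (b : Fin (g + 1) → ℤ) (m : ℝ) :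
    laplacian b m = Matrix.of (lap (wt b) m) := rfl

theorem log_lead_nonneg {F : ℤ[X]} (h0 : F.leadingCoeff ≠ 0) :
    0 ≤ Real.log |(F.leadingCoeff : ℝ)| := by
  refine Real.log_nonneg ?_
  have := Int.one_le_abs h0
  exact_mod_cast this

theorem radius_small {g : ℕ} (hg : 20 ≤ g) {F : ℤ[X]} (h0 : F.leadingCoeff ≠ 0) :
    0 < radius g F ∧ 6 * (g : ℝ) ^ 2 * (g + 1) * radius g F ≤ 1 := by
  have h1 : (1 : ℝ) ≤ |(F.leadingCoeff : ℝ)| := by
    have := Int.one_le_abs h0
    exact_mod_cast this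
  have hf : (0 : ℝ) < ((g / 2).factorial : ℝ) := by exact_mod_cast Nat.factorial_pos (g / 2)
  have hpos : 0 < |(F.leadingCoeff : ℝ)| * ((g / 2).factorial : ℝ) ^ 2 := by positivity
  unfold radius
  refine ⟨by positivity, ?_⟩
  rw [← mul_div_assoc, div_le_one hpos]
  have h2 : 6 * g ^ 2 * (g + 1) * 2 ^ (g + 3) ≤ (g / 2).factorial ^ 2 := by
    refine le_trans ?_ (Pool.Agent.X321.ST.num_aux (g / 2) (by omega))
    have e1 : g ≤ 2 * (g / 2) + 1 := by omega
    have e2 : g + 1 ≤ 2 * (g / 2) + 2 := by omega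
    have e3 : g + 3 ≤ 2 * (g / 2) + 4 := by omega
    exact Nat.mul_le_mul (Nat.mul_le_mul (Nat.mul_le_mul le_rfl (Nat.pow_le_pow_left e1 2)) e2)
      (Nat.pow_le_pow_right (by norm_num) e3)
  have h3 : 6 * (g : ℝ) ^ 2 * (g + 1) * 2 ^ (g + 3) ≤ ((g / 2).factorial : ℝ) ^ 2 := by
    exact_mod_cast h2
  have h4 : 0 ≤ ((g / 2).factorial : ℝ) ^ 2 := by positivity
  nlinarith

/-- Let `g ≥ 20`, let `F` be a polynomial of degree `g + 1` with integer coefficients and leading
coefficient `μ`, and let `b_0, ..., b_g` be different integers with `|F(b_i)| ≤ 2`. The coordinate ring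
of the plane curve `z² - F(x) z + 1 = 0` over `ℚ` is a domain, the symbols
`{z, (x - b_m) / (x - b_l)}` are unramified at all discrete valuations of the function field, and there
are loops `Γ_l`, `1 ≤ l ≤ g`, in the complex points, with `z = R e^{2 π i θ}`, `R > 1` and
`|x - b_l| < r` on `Γ_l`, where `r = 2 ^ (g + 3) / (|μ| (⌊g / 2⌋!)²)`, such that: the regulator of the
symbol `{z, (x - b_k) / (x - b_0)}` on `Γ_l` is `2 π L_{l,k}`, up to an error of at most
`4 π (g + 1) r`, with the matrix `L` of logarithms of integers (`logMatrix`); and the determinant of the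
regulators of the `g` symbols on the `g` loops is `(2 π) ^ g det L`, up to a relative error of at most
`12 g² (g + 1) r`. Here `det L ≠ 0`, `log |μ| det L` is the determinant of
`log |μ| + ` the Laplacian of the complete graph on `0, ..., g` with the weights `log |b_i - b_j|`, and
`det L` is `g + 1` times the reduced determinant of this Laplacian if `μ = ±1` (`LogDet`). -/
theorem result.{v} (g : ℕ) (hg : 20 ≤ g) (F : ℤ[X]) (b : Fin (g + 1) → ℤ)
    (hdeg : F.natDegree = g + 1) (hb : Function.Injective b) (hF : ∀ i, |F.eval (b i)| ≤ 2) :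
    IsDomain (PRing (rat F)) ∧ UnramifiedSymbols.{v} F b ∧ LogDet F b ∧
    ∃ Γ : Fin g → Torus (POpen (rat F) (bq b)) 1, SmallLoops F b (radius g F) Γ ∧
      (∀ l k, |regMatrix F b Γ l k - 2 * Real.pi * logMatrix F b l k| ≤
        4 * Real.pi * (g + 1) * radius g F) ∧
      |(regMatrix F b Γ).det / ((2 * Real.pi) ^ g * (logMatrix F b).det) - 1| ≤
        12 * g ^ 2 * (g + 1) * radius g F := by
  have hlam0 : F.leadingCoeff ≠ 0 := by
    rw [Ne, leadingCoeff_eq_zero]
    rintro rfl
    rw [natDegree_zero] at hdeg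
    omega
  have hlead := log_lead_nonneg hlam0
  obtain ⟨hr0, hr⟩ := radius_small hg hlam0
  have hg' : (20 : ℝ) ≤ g := by exact_mod_cast hg
  have hr2 : radius g F ≤ 1 / 2 := by
    have h1 : 2 * radius g F ≤ 6 * (g : ℝ) ^ 2 * (g + 1) * radius g F := by
      refine mul_le_mul_of_nonneg_right ?_ hr0.le
      nlinarith
    linarith
  obtain ⟨ξ, H⟩ := Pool.Agent.X321.ST.exists_sepd (by omega) hdeg hb hF hr2
  have hmap := rat_map F
  have hsb : (fun j => sq (bq b j)) = fun j => ((b j : ℤ) : ℂ) := by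
    funext j
    exact sq_int _
  have H' : Pool.Agent.TH826.UH.Sepd ((rat F).map sq) (fun j => sq (bq b j)) (radius g F) ξ := by
    rw [hmap, hsb]
    exact H
  have hti : ∀ i, ∃ (ζ : ℂ) (k : ℕ), k ≠ 0 ∧ ζ ^ k = 1 ∧
      sq ((rat F).eval (bq b i)) = ζ + ζ⁻¹ := by
    intro i
    unfold bq
    rw [rat_eval, sq_int]
    exact Pool.Agent.Y94.UG.exists_zeta (hF i)
  have hti' : ∀ i, ∃ ζ : ℂ, ‖ζ‖ = 1 ∧ sq ((rat F).eval (bq b i)) = ζ + ζ⁻¹ := by
    intro i
    obtain ⟨ζ, k, hk, h1, h2⟩ := hti i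
    refine ⟨ζ, ?_, h2⟩
    have h3 := congrArg norm h1
    rw [norm_pow, norm_one] at h3
    exact (pow_eq_one_iff_of_nonneg (norm_nonneg _) hk).1 h3
  have hint : ∀ i, IsIntegral ℤ ((rat F).coeff i) := by
    intro i
    unfold rat
    rw [Polynomial.coeff_map]
    exact isIntegral_algebraMap (R := ℤ) (A := ℚ) (x := F.coeff i)
  have hdegF : 0 < (rat F).natDegree := by
    have h1 := H'.deg
    rw [Polynomial.natDegree_map] at h1
    omega
  have hdist : ∀ i j, ‖sq (bq b i) - sq (bq b j)‖ = |(b i : ℝ) - b j| := by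
    intro i j
    have h1 : sq (bq b i) - sq (bq b j) = (((b i : ℝ) - b j : ℝ) : ℂ) := by
      rw [show sq (bq b i) = ((b i : ℤ) : ℂ) from sq_int _,
        show sq (bq b j) = ((b j : ℤ) : ℂ) from sq_int _]
      push_cast
      ring
    rw [h1, Complex.norm_real, Real.norm_eq_abs]
  have hnorm : ‖((rat F).map sq).leadingCoeff‖ = |(F.leadingCoeff : ℝ)| := by
    rw [hmap, leadingCoeff_map_of_injective (Int.cast_injective : Function.Injective
      (Int.castRingHom ℂ))]
    rw [show (Int.castRingHom ℂ) F.leadingCoeff = ((F.leadingCoeff : ℤ) : ℂ) from rfl,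
      Complex.norm_intCast]
  have hpi := Real.pi_pos
  have hdet0 : (logMatrix F b).det ≠ 0 := by
    rw [logMatrix_eq]
    exact Pool.Agent.X321.ST.det_wt_ne_zero hb (by omega) hlead
  refine ⟨isDomain_PRing hdegF, ?_, ⟨hdet0, ?_, fun h1 => ?_⟩, ?_⟩
  · intro L _ _ _
    have hinj : Function.Injective (algebraMap (PRing (rat F)) L) :=
      IsFractionRing.injective _ _
    have hne : algebraMap (PRing (rat F)) L (pDel (rat F) (bq b)) ≠ 0 := by
      rw [Ne, map_eq_zero_iff _ hinj]
      exact pDel_ne_zero (bq b)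
    exact ⟨liftP (algebraMap (PRing (rat F)) L) hne, fun r => liftP_toP _ _ _,
      fun m l => symb_mem_unramified _ sq hint (fun i => by
        unfold bq
        exact isIntegral_algebraMap (R := ℤ) (x := b i)) m l hti⟩
  · rw [logMatrix_eq, laplacian_eq]
    exact Pool.Agent.X321.ST.mul_det_lmat _
  · rw [logMatrix_eq, laplacian_eq]
    have h2 : |(F.leadingCoeff : ℝ)| = 1 := by exact_mod_cast h1
    rw [h2, Real.log_one]
    exact Pool.Agent.X321.ST.det_lmat_zero (Pool.Agent.X321.ST.wt_symm b)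
  · obtain ⟨R, Γ, hR, h1, h2, h3, h4⟩ := Pool.Agent.X321.ST.exists_loops_near H' hr2
      (fun i j hij => by
        rw [hdist]
        have e1 : (1 : ℤ) ≤ |b i - b j| := Int.one_le_abs (sub_ne_zero.2 (hb.ne hij))
        have e2 : (1 : ℝ) ≤ |(b i : ℝ) - b j| := by exact_mod_cast e1
        nlinarith) hti'
    have hw : (fun i j => Real.log ‖sq (bq b i) - sq (bq b j)‖) = wt b := by
      funext i j
      rw [hdist]
      rfl
    rw [hnorm, hw, ← logMatrix_eq] at h4
    refine ⟨Γ, ⟨R, hR, fun l θ => ⟨fun y => ?_, h2 l θ, h3 l θ⟩⟩, h4, ?_⟩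
    · rw [h1]
      exact (eq_ratCast sq y)
    · have h5 := Pool.Agent.X321.ST.det_wt_near hb (by omega) hlead (δ := 2 * (g + 1) * radius g F)
        (by positivity) (by linarith)
        (R := Matrix.of fun l k : Fin g => regMatrix F b Γ l k / (2 * Real.pi)) (fun l k => by
          rw [Matrix.of_apply]
          have e1 : regMatrix F b Γ l k / (2 * Real.pi) -
              lmat (wt b) (Real.log |(F.leadingCoeff : ℝ)|) l k =
              (regMatrix F b Γ l k - 2 * Real.pi * logMatrix F b l k) / (2 * Real.pi) := by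
            rw [logMatrix_eq]
            field_simp
          rw [e1, abs_div, abs_of_pos (by positivity : (0 : ℝ) < 2 * Real.pi),
            div_le_iff₀ (by positivity)]
          refine (h4 l k).trans (le_of_eq ?_)
          ring)
      have h6 := Pool.Agent.X321.DC.det_div (regMatrix F b Γ) (s := 2 * Real.pi) (by positivity)
      rw [Fintype.card_fin] at h6
      rw [← div_div, h6, logMatrix_eq]
      refine h5.trans (le_of_eq ?_)
      ring

end Pool.Agent.Results.MP_743d1e_nt.SpanningTreeAsymptotics
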